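import Pool.Agent.Q91.PT.Stm2
import Pool.Agent.H739K.CONV

/-!
# Project PT, job CNV: loops and words
-/

set_option autoImplicit false

namespace Pool.Agent.Q31.PT.CNV

open Finset Pool.Agent.H976R2 Pool.Agent.H976R2.Lip Pool.Agent.H739K Pool.Agent.H924P
open Pool.Agent.Q91.PT
open scoped Classical

theorem length_of {n : ℕ} {w : List Dir} (h : w ∈ KP n) : w.length = n := by
  unfold KP at h
  rw [mem_filter] at h
  exact (mem_SW.1 h.1).1

theorem set_eq (n : ℕ) (P : (ZMod (n + 1) → ℤ × ℤ) → Prop)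
    [DecidablePred fun w : List Dir => P (lp (n + 1) w)] :
    {f : ZMod (n + 1) → ℤ × ℤ | IsLoop (n + 1) f ∧ P f} =
      (fun w => lp (n + 1) w) '' (((KP n).filter (fun w => P (lp (n + 1) w)) : Finset (List Dir)) :
        Set (List Dir)) := by
  have h0 : {f : ZMod (n + 1) → ℤ × ℤ | IsLoop (n + 1) f} =
      (fun w => lp (n + 1) w) '' (KP n : Set (List Dir)) := by
    rw [← CONV.image_eq]
    rfl
  ext f
  constructor
  · rintro ⟨h1, h2⟩
    have h3 : f ∈ (fun w => lp (n + 1) w) '' (KP n : Set (List Dir)) := by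
      rw [← h0]
      exact h1
    obtain ⟨w, hw, rfl⟩ := h3
    exact ⟨w, mem_coe.2 (mem_filter.2 ⟨mem_coe.1 hw, h2⟩), rfl⟩
  · rintro ⟨w, hw, rfl⟩
    rw [mem_coe, mem_filter] at hw
    refine ⟨?_, hw.2⟩
    have h3 : lp (n + 1) w ∈ {f : ZMod (n + 1) → ℤ × ℤ | IsLoop (n + 1) f} := by
      rw [h0]
      exact ⟨w, mem_coe.2 hw.1, rfl⟩
    exact h3

theorem inj (n : ℕ) (P : List Dir → Prop) [DecidablePred P] : Set.InjOn (fun w => lp (n + 1) w)
    (((KP n).filter P : Finset (List Dir)) : Set (List Dir)) := by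
  intro a ha b hb h
  rw [mem_coe, mem_filter] at ha hb
  exact CONV.injOn n (mem_coe.2 ha.1) (mem_coe.2 hb.1) h

theorem t : S_cnv := by
  intro N hN
  have key : ∀ m : ℕ, m = 2 * N → ∀ n : ℕ, m = n + 1 →
      (∀ (B : Set (ℕ × ℕ)) (T : Set ℤ),
        Nat.card {f : ZMod m → ℤ × ℤ // IsLoop m f ∧ (width m f, height m f) ∈ B ∧
          (area m f : ℤ) ∈ T} = ((KP n).filter (fun w => dims w ∈ B ∧ (ar w : ℤ) ∈ T)).card) ∧
      (∀ (B : Set (ℕ × ℕ)) (G : ℕ → ℂ),
        ∑ᶠ f ∈ {f : ZMod m → ℤ × ℤ | IsLoop m f ∧ (width m f, height m f) ∈ B}, G (area m f) =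
          ∑ w ∈ (KP n).filter (fun w => dims w ∈ B), G (ar w)) ∧
      (∀ G : ℕ → ℝ, ∑ᶠ f ∈ {f : ZMod m → ℤ × ℤ | IsLoop m f}, G (area m f) =
        ∑ w ∈ KP n, G (ar w)) ∧
      {f : ZMod m → ℤ × ℤ | IsLoop m f}.ncard = (KP n).card := by
    rintro m - n rfl
    have hd : ∀ w ∈ KP n, dims w = (width (n + 1) (lp (n + 1) w), height (n + 1) (lp (n + 1) w)) := by
      intro w hw
      have hl := length_of hw
      subst hl
      rfl
    have ha : ∀ w ∈ KP n, ar w = area (n + 1) (lp (n + 1) w) := by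
      intro w hw
      have hl := length_of hw
      subst hl
      rfl
    refine ⟨?_, ?_, ?_, ?_⟩
    · intro B T
      have h1 := set_eq n (fun f => (width (n + 1) f, height (n + 1) f) ∈ B ∧ (area (n + 1) f : ℤ) ∈ T)
      have h2 : (KP n).filter (fun w => dims w ∈ B ∧ (ar w : ℤ) ∈ T) =
          (KP n).filter (fun w => (width (n + 1) (lp (n + 1) w), height (n + 1) (lp (n + 1) w)) ∈ B ∧
            (area (n + 1) (lp (n + 1) w) : ℤ) ∈ T) := by
        refine filter_congr ?_
        intro w hw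
        rw [hd w hw, ha w hw]
      rw [h2, ← Set.ncard_coe_finset]
      exact (congrArg Set.ncard h1).trans (inj n _).ncard_image
    · intro B G
      have h1 := set_eq n (fun f => (width (n + 1) f, height (n + 1) f) ∈ B)
      have h2 : (KP n).filter (fun w => dims w ∈ B) =
          (KP n).filter (fun w => (width (n + 1) (lp (n + 1) w), height (n + 1) (lp (n + 1) w)) ∈ B) := by
        refine filter_congr ?_
        intro w hw
        rw [hd w hw]
      rw [h1, finsum_mem_image (inj n _), finsum_mem_coe_finset, h2]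
      refine sum_congr rfl ?_
      intro w hw
      rw [ha w (mem_filter.1 hw).1]
    · intro G
      have h1 : {f : ZMod (n + 1) → ℤ × ℤ | IsLoop (n + 1) f} =
          (fun w => lp (n + 1) w) '' (KP n : Set (List Dir)) := by
        rw [← CONV.image_eq]
        rfl
      have h3 : Set.InjOn (fun w => lp (n + 1) w) (KP n : Set (List Dir)) := CONV.injOn n
      rw [h1, finsum_mem_image h3, finsum_mem_coe_finset]
      refine sum_congr rfl ?_
      intro w hw
      rw [ha w hw]
    · have h1 : {f : ZMod (n + 1) → ℤ × ℤ | IsLoop (n + 1) f} =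
          (fun w => lp (n + 1) w) '' (KP n : Set (List Dir)) := by
        rw [← CONV.image_eq]
        rfl
      rw [h1]
      exact ((CONV.injOn n).ncard_image).trans (Set.ncard_coe_finset _)
  exact key (2 * N) rfl (2 * N - 1) (by omega)

end Pool.Agent.Q31.PT.CNV
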